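import Mathlib
import Pool.Agent.Helper4.Disc.Defs
import Pool.Agent.Helper4.Disc.Concat

open Filter Pool.Agent.Helper4.Disc

namespace Pool.Agent.Results.MP_f4022e_nt.Disproof

/-- The discrepancy is bounded by any uniform bound over boxes. -/
lemma disc_le {d : ℕ} (z : ℕ → Fin d → ℝ) (N : ℕ) (hN : 0 < N) (D : ℝ)
    (h : ∀ B : Set (Fin d → ℝ), IsBox B →
      |(count z N B : ℝ) - N * (MeasureTheory.volume B).toReal| ≤ D) :
    disc z N ≤ D / N := by
  unfold disc
  apply csSup_le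
  · exact ⟨_, Set.univ.pi (fun _ => Set.Ico (0 : ℝ) 1),
      ⟨fun _ => Set.Ico (0 : ℝ) 1, fun _ => ⟨Set.ordConnected_Ico, subset_rfl⟩, rfl⟩, rfl⟩
  · rintro δ ⟨B, hB, rfl⟩
    have hNR : (0 : ℝ) < N := by exact_mod_cast hN
    have h1 := h B hB
    have e : (count z N B : ℝ) / N - (MeasureTheory.volume B).toReal
        = ((count z N B : ℝ) - N * (MeasureTheory.volume B).toReal) / N := by
      field_simp
    rw [e, abs_div, abs_of_pos hNR]
    exact div_le_div_of_nonneg_right h1 hNR.le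

/-- There is a sequence in `[0,1)^2` whose extreme discrepancy satisfies
`D_N ≤ C (log N)^2 / (N (log log N)^2)` for all `N ≥ 3`; consequently, for every `c > 0`,
`D_N < c (log N)^2 / N` for all sufficiently large `N`. -/
theorem result : ∃ z : ℕ → Fin 2 → ℝ, (∀ n i, z n i ∈ Set.Ico (0 : ℝ) 1) ∧
    (∃ C : ℝ, ∀ N : ℕ, 3 ≤ N →
      disc z N ≤ C * (Real.log N) ^ 2 / (N * (Real.log (Real.log N)) ^ 2)) ∧
    (∀ c : ℝ, 0 < c → ∀ᶠ N : ℕ in atTop, disc z N < c * (Real.log N) ^ 2 / N) := by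
  obtain ⟨z, hz, C, hC, hmain⟩ := Pool.Agent.Helper4.Disc.main
  have hD : ∀ N : ℕ, 3 ≤ N →
      disc z N ≤ C * (Real.log N) ^ 2 / (N * (Real.log (Real.log N)) ^ 2) := by
    intro N hN
    have h1 := disc_le z N (by omega) _ (hmain N hN)
    refine h1.trans (le_of_eq ?_)
    rw [div_div, mul_comm (N : ℝ)]
  refine ⟨z, hz, ⟨C, hD⟩, ?_⟩
  intro c hc
  -- `log log N → ∞`
  have hlim : Tendsto (fun N : ℕ => Real.log (Real.log (N : ℝ))) atTop atTop :=
    Real.tendsto_log_atTop.comp (Real.tendsto_log_atTop.comp tendsto_natCast_atTop_atTop)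
  have hev := (tendsto_atTop.mp hlim) (C / c + 1)
  filter_upwards [hev, eventually_ge_atTop 3] with N hN1 hN3
  have h0 : 0 < C / c := by positivity
  have h2 : 1 ≤ Real.log (Real.log (N : ℝ)) := by linarith
  have hNR : (3 : ℝ) ≤ N := by exact_mod_cast hN3
  have hlog : 0 < Real.log (N : ℝ) := Real.log_pos (by linarith)
  have hsq : C < c * (Real.log (Real.log (N : ℝ))) ^ 2 := by
    have h3 : C < c * Real.log (Real.log (N : ℝ)) := by
      have : C / c < Real.log (Real.log (N : ℝ)) := by linarith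
      rwa [div_lt_iff₀' hc] at this
    have h4 : Real.log (Real.log (N : ℝ)) ≤ (Real.log (Real.log (N : ℝ))) ^ 2 := by nlinarith
    have h5 := mul_le_mul_of_nonneg_left h4 hc.le
    linarith
  refine lt_of_le_of_lt (hD N hN3) ?_
  have hll : 0 < (Real.log (Real.log (N : ℝ))) ^ 2 := by positivity
  rw [div_lt_div_iff₀ (by positivity) (by linarith)]
  have h6 : 0 < (Real.log (N : ℝ)) ^ 2 * N := by positivity
  nlinarith [mul_lt_mul_of_pos_right hsq h6]

end Pool.Agent.Results.MP_f4022e_nt.Disproof
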